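import Pool.Agent.Q62.AV.Stm
import Pool.Agent.Q130.AV.V0
import Pool.Agent.Q130.AV.V4
import Pool.Agent.Q130.AV.V5
import Pool.Agent.Q130.AV.V7
import Pool.Agent.Q272.AV.V1
import Pool.Agent.Q272.AV.V2
import Pool.Agent.Q272.AV.V3
import Pool.Agent.Q275.AV.V6
import Pool.Agent.Q275.AV.V8

/-! Project AV: all lemmas put together. -/

namespace Pool.Agent.Q62.AV

open Pool.Agent.Q130.AV Pool.Agent.Q272.AV Pool.Agent.Q275.AV

theorem all : S_V8 := by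
  have v0 : S_V0 := @t_V0
  have v1 : S_V1 := @t_V1
  have v2 : S_V2 := @t_V2 v1
  have v3 : S_V3 := @t_V3 v0 v2
  have v4 : S_V4 := @t_V4
  have v5 : S_V5 := @t_V5
  have v6 : S_V6 := @t_V6 v0 v3 v4 v5
  have v7 : S_V7 := @t_V7
  exact @t_V8 v0 v6 v7

end Pool.Agent.Q62.AV
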