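import Mathlib

/-!
Project AV (MP_966485_an): averaged null controllability of random fractional heat equations fails
for every random diffusivity and every exponent `γ ∈ (0, 1/2]`. Definitions and lemmas.
-/

open MeasureTheory Filter Topology Set
open scoped ContDiff InnerProductSpace

namespace Pool.Agent.Q62.AV

/-- `ℝⁿ` -/
abbrev Eu (n : ℕ) := EuclideanSpace ℝ (Fin n)

/-- `L²(G)` -/
noncomputable abbrev HG {n : ℕ} (G : Set (Eu n)) := Lp ℝ 2 (volume.restrict G)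

/-- `C_c^∞(G)` -/
def TestIn {n : ℕ} (G : Set (Eu n)) (φ : Eu n → ℝ) : Prop :=
  ContDiff ℝ ∞ φ ∧ HasCompactSupport φ ∧ tsupport φ ⊆ G

/-- `v ∈ H¹₀(G)` with gradient `g` -/
def H10 {n : ℕ} (G : Set (Eu n)) (v : Eu n → ℝ) (g : Eu n → Eu n) : Prop :=
  MemLp v 2 (volume.restrict G) ∧ MemLp g 2 (volume.restrict G) ∧
  ∃ φ : ℕ → Eu n → ℝ, (∀ k, TestIn G (φ k)) ∧
    Tendsto (fun k => ∫ x in G, (φ k x - v x) ^ 2) atTop (𝓝 0) ∧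
    Tendsto (fun k => ∫ x in G, ‖gradient (φ k) x - g x‖ ^ 2) atTop (𝓝 0)

/-- `v ∈ H¹₀(G)` (with gradient `g`) is a weak solution of `-Δ v = l v` -/
def Eig {n : ℕ} (G : Set (Eu n)) (l : ℝ) (v : Eu n → ℝ) (g : Eu n → Eu n) : Prop :=
  H10 G v g ∧ ∀ φ, TestIn G φ → ∫ x in G, ⟪g x, gradient φ x⟫_ℝ = l * ∫ x in G, v x * φ x

/-- the weight exponent -/
noncomputable def wt {n : ℕ} (x₀ x : Eu n) : ℝ := √(1 + ‖x - x₀‖ ^ 2)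

/-- functions of the operator: `∑ Φ j ⟪e j, f⟫ e j` -/
noncomputable def dg {H : Type*} [NormedAddCommGroup H] [InnerProductSpace ℝ H] [CompleteSpace H]
    (e : HilbertBasis ℕ ℝ H) (Φ : ℕ → ℝ) (f : H) : H := ∑' j, (Φ j * ⟪e j, f⟫_ℝ) • e j

/-- **V0 (basic facts on `dg`).** The family `(Φ j * ⟪e j, f⟫) • e j` is summable as the coefficients
are in `ℓ²` (`HilbertBasis.repr`, `HilbertBasis.hasSum_repr_symm`); Parseval for the norm and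
the inner product. -/
def S_V0 : Prop := ∀ {H : Type} [NormedAddCommGroup H] [InnerProductSpace ℝ H] [CompleteSpace H]
  (e : HilbertBasis ℕ ℝ H) (Φ : ℕ → ℝ) (C : ℝ), (∀ j, |Φ j| ≤ C) → ∀ f : H,
  (∀ j, ⟪e j, dg e Φ f⟫_ℝ = Φ j * ⟪e j, f⟫_ℝ) ∧ ‖dg e Φ f‖ ≤ C * ‖f‖ ∧
  ∀ h : H, Summable (fun j => |⟪e j, f⟫_ℝ * ⟪e j, h⟫_ℝ|) ∧
    ⟪dg e Φ f, h⟫_ℝ = ∑' j, Φ j * ⟪e j, f⟫_ℝ * ⟪e j, h⟫_ℝ

/-- **V1 (weighted identity).** `wt x₀` is smooth with `‖gradient (wt x₀) x‖ < 1`, and it is bounded on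
the bounded set `G`. Let `φ k → v'` be the test functions of `H10 G v' g'`. Then
`ψ k = exp (2 κ wt) φ k` is a test function with gradient
`exp (2 κ wt) (gradient (φ k) + 2 κ (φ k) gradient (wt x₀))`. Put it in the weak equation of `v` and
let `k → ∞`: the gradient of `ψ k` converges in `L²(G)` (the weight is bounded). -/
def S_V1 : Prop := ∀ {n : ℕ} (G : Set (Eu n)), IsOpen G → Bornology.IsBounded G →
  ∀ (x₀ : Eu n) (κ : ℝ), 0 ≤ κ →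
  (∀ x, ‖gradient (wt x₀) x‖ ≤ 1) ∧
  ∀ (l l' : ℝ) (v v' : Eu n → ℝ) (g g' : Eu n → Eu n), Eig G l v g → Eig G l' v' g' →
    ∫ x in G, Real.exp (2 * κ * wt x₀ x) * ⟪g x, g' x⟫_ℝ =
      l * (∫ x in G, Real.exp (2 * κ * wt x₀ x) * (v x * v' x)) -
        2 * κ * ∫ x in G, Real.exp (2 * κ * wt x₀ x) * (v' x * ⟪g x, gradient (wt x₀) x⟫_ℝ)

/-- **V2 (weighted energy inequality).** (From V1.) Let `μ j = √(lam j)`,
`w t = ∑_{j ∈ S} a j (sin (μ j t) / μ j) v j`, `w' t = ∑ a j cos (μ j t) v j`,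
`w'' t = - ∑ a j μ j sin (μ j t) v j`, `∇w t = ∑ a j (sin (μ j t) / μ j) g j`,
`∇w' t = ∑ a j cos (μ j t) g j` and `N t = ∫ exp (2 κ wt) (w'^2 + ‖∇w‖^2)`, a finite sum of smooth
functions of `t` times fixed integrals. By V1 (bilinearity)
`∫ exp ⟪∇w, ∇w'⟫ = - ∫ exp w'' w' - 2 κ ∫ exp w' ⟪∇w, ∇wt⟫`, hence
`N' = 2 ∫ exp (w' w'' + ⟪∇w, ∇w'⟫) = - 4 κ ∫ exp w' ⟪∇w, ∇wt⟫ ≤ 2 κ N`. So `N t ≤ exp (2 κ t) N 0`
(`t ≥ 0`) and `N 0 = ∫ exp (∑ a j v j)^2`. -/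
def S_V2 : Prop := ∀ {n : ℕ} (G : Set (Eu n)), IsOpen G → Bornology.IsBounded G →
  ∀ (lam : ℕ → ℝ) (v : ℕ → Eu n → ℝ) (g : ℕ → Eu n → Eu n),
  (∀ j, 0 < lam j) → (∀ j, Eig G (lam j) (v j) (g j)) →
  ∀ (x₀ : Eu n) (κ : ℝ), 0 ≤ κ → ∀ (S : Finset ℕ) (a : ℕ → ℝ) (t : ℝ), 0 ≤ t →
    ∫ x in G, Real.exp (2 * κ * wt x₀ x) * (∑ j ∈ S, a j * Real.cos (√(lam j) * t) * v j x) ^ 2 ≤
      Real.exp (2 * κ * t) *
        ∫ x in G, Real.exp (2 * κ * wt x₀ x) * (∑ j ∈ S, a j * v j x) ^ 2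

/-- a Dirichlet eigenbasis of `L²(G)` -/
def DirBasis {n : ℕ} (G : Set (Eu n)) (lam : ℕ → ℝ) (e : HilbertBasis ℕ ℝ (HG G)) : Prop :=
  (∀ j, 0 < lam j) ∧ ∀ j, ∃ g : Eu n → Eu n, Eig G (lam j) (fun x => (e j : HG G) x) g

/-- **V3 (finite speed of propagation).** (From V0, V2.) By density of the finite sums and
continuity (the weight is bounded above and below on `G`) V2 gives for all `f ∈ L²(G)`, `t ≥ 0`:
`∫_G exp (2 κ wt) (cos(t√A) f)^2 ≤ exp (2 κ t) ∫_G exp (2 κ wt) f^2`. If `f` vanishes outside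
`ball x₀ r` and `x ∉ ball x₀ R` for `x ∈ G₀`, then
`exp (2 κ √(1+R²)) ∫_{G₀} (cos(t√A) f)^2 ≤ exp (2 κ (t + √(1+r²))) ∫ f^2`; let `κ → ∞`. -/
def S_V3 : Prop := ∀ {n : ℕ} (G G₀ : Set (Eu n)), IsOpen G → Bornology.IsBounded G →
  MeasurableSet G₀ → G₀ ⊆ G →
  ∀ (lam : ℕ → ℝ) (e : HilbertBasis ℕ ℝ (HG G)), DirBasis G lam e →
  ∀ (x₀ : Eu n) (r R : ℝ), 0 < r → r < R → (∀ x ∈ G₀, R ≤ dist x x₀) →
  ∀ f : HG G, (∀ᵐ x ∂(volume.restrict G), x ∉ Metric.ball x₀ r → f x = 0) →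
  ∀ t : ℝ, 0 ≤ t → t < √(1 + R ^ 2) - √(1 + r ^ 2) →
    ∀ᵐ x ∂(volume.restrict G), x ∈ G₀ →
      (dg e (fun j => Real.cos (√(lam j) * t)) f : HG G) x = 0

/-- **V4 (Poisson kernel).** For `σ > 0` the function `exp (-σ |y|)` has the Fourier transform
`2 σ / (σ² + t²)`; Fourier inversion. (Or: the cosine transform is the unique bounded solution
of an ordinary differential equation; or residues; `μ = 0` is the arctangent.) -/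
def S_V4 : Prop := ∀ σ μ : ℝ, 0 < σ → 0 ≤ μ →
  ∫ t in Ioi (0 : ℝ), σ / (σ ^ 2 + t ^ 2) * Real.cos (t * μ) = Real.pi / 2 * Real.exp (-(σ * μ))

/-- **V5 (scalar Runge lemma).** Let `X` be a Banach space of bounded functions
`[0, ∞) → L¹((d, ∞))` with the sup norm, `g_r (s)(t) = (s + r) / ((s + r)² + t²)` for real `r` (also
negative); `‖g_r‖ ≤ π / 2` (for `σ` real `∫_d^∞ |σ| / (σ² + t²) dt ≤ π / 2`). If the lemma
fails for some `C`, then `|∑ c k exp (-μ r k)| ≤ C ‖∑ c k g_(r k)‖` for all finite families with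
`r k ≥ 0`, so by Hahn-Banach there is a continuous functional `Λ` on `X` with
`Λ g_r = exp (-μ r)` for all `r ≥ 0`. Now `F r = Λ g_r` is real analytic on all of `ℝ`: as
`g_r (s)(t) = Re (1 / (s + r + i t))`, for `|h| < d`
`g_(r - h) = ∑_k h^k q_k`, `q_k (s)(t) = Re ((s + r + i t)^(-(k+1)))`,
`‖q_k‖ ≤ ∫_d^∞ t^(-(k+1)) dt = d^(-k) / k` for `k ≥ 1`, convergent in `X`. By the identity theorem
`F r = exp (-μ r)` for all `r ∈ ℝ`, but `|F r| ≤ ‖Λ‖ π / 2`: contradiction as `r → -∞`. -/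
def S_V5 : Prop := ∀ d μ C : ℝ, 0 < d → 0 < μ → ∃ (N : ℕ) (c r : Fin N → ℝ), (∀ k, 0 ≤ r k) ∧
  (∀ s : ℝ, 0 ≤ s → ∫ t in Ioi d, |∑ k, c k * ((s + r k) / ((s + r k) ^ 2 + t ^ 2))| ≤ 1) ∧
  C ≤ |∑ k, c k * Real.exp (-(μ * r k))|

/-- **V6 (concentrated vectors).** (From V0, V3, V4, V5.) Let `x₀` be an interior point of
`G \ closure G₀`, `ball x₀ R ⊆ G \ closure G₀`, `r = R / 2`, `f` the indicator of `ball x₀ r` in
`L²(G)`. As `f ≠ 0` there is `j₀` with `⟪e j₀, f⟫ ≠ 0`. Let `d = √(1+R²) - √(1+r²)`, take `c, r` from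
V5 (with `r k > 0`; if some `r k = 0` note that the kernel is `0` at `s + r k = 0`, treat `s > 0` first
and pass to the limit `s → 0` by continuity, or shift all `r k` a little) and
`z₀ = ∑ c k dg e (exp (-√lam r k)) f`. For `h` supported in `G₀`, `‖h‖ ≤ 1`, `s > 0`, V4 gives
`∑' j, exp (-s √lam j) ⟪e j, z₀⟫ ⟪e j, h⟫ = ⟪∑ k, c k dg e (exp (-(s + r k) √lam)) f, h⟫
= (2/π) ∫_0^∞ (∑ k, c k (s + r k) / ((s + r k)² + t²)) ⟪dg e (cos (√lam t)) f, h⟫ dt`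
(sum and integral may be exchanged), by V3 the integrand vanishes for `t < d`, so the absolute
value is at most `(2/π) ‖f‖`. And `⟪e j₀, z₀⟫ = (∑ c k exp (-√lam j₀ r k)) ⟪e j₀, f⟫` is as large as we
want. Normalise. -/
def S_V6 : Prop := ∀ {n : ℕ} (G G₀ : Set (Eu n)), IsOpen G → Bornology.IsBounded G →
  IsOpen G₀ → G₀ ⊆ G → (interior (G \ closure G₀)).Nonempty →
  ∀ (lam : ℕ → ℝ) (e : HilbertBasis ℕ ℝ (HG G)), DirBasis G lam e →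
  ∃ j₀ : ℕ, ∀ C : ℝ, ∃ z : HG G, C ≤ |⟪e j₀, z⟫_ℝ| ∧
    ∀ s : ℝ, 0 ≤ s → ∀ h : HG G, ‖h‖ ≤ 1 →
      (∀ᵐ x ∂(volume.restrict G), x ∉ G₀ → h x = 0) →
      |∑' j, Real.exp (-(s * √(lam j))) * ⟪e j, z⟫_ℝ * ⟪e j, h⟫_ℝ| ≤ 1

/-- **V7 (subordination).** `β = 1` is trivial. Let `0 < β < 1` and let `𝒟` be the set of the bounded
functions `Φ : (0, ∞) → ℝ` such that for all summable `b` with `|∑' b j exp (-σ μ j)| ≤ 1`
(`σ ≥ 0`) one has `|∑' b j Φ (μ j) exp (-σ μ j)| ≤ 1` (`σ ≥ 0`). `𝒟` contains `exp (-r ·)`, `r ≥ 0`, and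
it is closed under products, countable convex combinations and bounded pointwise limits. For `ε > 0`
let `a = ∫_ε^∞ r^(-1-β) dr`, `Ψ m = a⁻¹ ∫_ε^∞ exp (-r m) r^(-1-β) dr`; `Ψ ∈ 𝒟` (Fubini). So
`exp (-c (1 - Ψ)) = exp (-c) ∑ c^k Ψ^k / k! ∈ 𝒟` for `c ≥ 0`. Let
`K = ∫_0^∞ (1 - exp (-r)) r^(-1-β) dr ∈ (0, ∞)`, so that
`∫_0^∞ (1 - exp (-r m)) r^(-1-β) dr = K m^β` by scaling. With `c = s a / K` and `ε → 0`,
`exp (-c (1 - Ψ m)) = exp (-(s/K) ∫_ε^∞ (1 - exp (-r m)) r^(-1-β) dr) → exp (-s m^β)`. -/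
def S_V7 : Prop := ∀ (b μ : ℕ → ℝ), Summable (fun j => |b j|) → (∀ j, 0 < μ j) →
  (∀ σ : ℝ, 0 ≤ σ → |∑' j, Real.exp (-(σ * μ j)) * b j| ≤ 1) →
  ∀ β s : ℝ, 0 < β → β ≤ 1 → 0 ≤ s → |∑' j, Real.exp (-(s * μ j ^ β)) * b j| ≤ 1

/-- the coefficient `⟪e j, y(T, o)⟫` of the mild solution of
`y' + a A^γ y = B u`, `y(0) = y₀` (`a = α(o)`) -/
noncomputable def coef {n : ℕ} {G : Set (Eu n)} (lam : ℕ → ℝ) (e : HilbertBasis ℕ ℝ (HG G))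
    (γ T a : ℝ) (y₀ : HG G) (u : ℝ → HG G) (j : ℕ) : ℝ :=
  Real.exp (-(a * lam j ^ γ * T)) * ⟪e j, y₀⟫_ℝ +
    ∫ τ in (0 : ℝ)..T, Real.exp (-(a * lam j ^ γ * (T - τ))) * ⟪e j, u τ⟫_ℝ

/-- **V8 (no averaged null control of `e j₀`).** (From V0, V6, V7.) Let `j₀` be as in V6 and let `u`
be a control for `y₀ = e j₀`. Write `m t j = E exp (-α t lam j ^ γ) ∈ [0, 1]` and `c j τ = ⟪e j, u τ⟫`.
By Fubini the hypothesis is `m T j ⟪e j, e j₀⟫ + ∫_0^T m (T - τ) j * c j τ dτ = 0` for all `j`. Let `z`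
be as in V6, `z j = ⟪e j, z⟫`. Multiply by `z j` and sum over `j` (`∑ |z j c j τ| ≤ ‖z‖ ‖u τ‖`):
`m T j₀ * z j₀ = - ∫_0^T ∑ z j m (T - τ) j c j τ dτ`. For fixed `τ` (with `u τ` supported in `G₀`) apply
V7 with `μ j = √(lam j)`, `β = 2 γ`, `b j = z j c j τ / ‖u τ‖` (V6 with `h = u τ / ‖u τ‖`) to get
`|∑ exp (-s lam j ^ γ) z j c j τ| ≤ ‖u τ‖` for all `s ≥ 0`, and average over `s = α(o) (T - τ)`. So
`m T j₀ * |z j₀| ≤ ∫_0^T ‖u τ‖ dτ` for all such `z`; as `m T j₀ > 0` this contradicts V6. -/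
def S_V8 : Prop := ∀ {n : ℕ} (G G₀ : Set (Eu n)), IsOpen G → Bornology.IsBounded G →
  IsOpen G₀ → G₀ ⊆ G → (interior (G \ closure G₀)).Nonempty →
  ∀ (lam : ℕ → ℝ) (e : HilbertBasis ℕ ℝ (HG G)), DirBasis G lam e → ∀ T : ℝ, 0 < T →
  ∃ j₀ : ℕ, ∀ {Ω : Type} [MeasurableSpace Ω] (P : Measure Ω) [IsProbabilityMeasure P] (α : Ω → ℝ),
    AEMeasurable α P → (∀ o, 0 ≤ α o) → ∀ γ : ℝ, 0 < γ → γ ≤ 1 / 2 →
    ¬ ∃ u : ℝ → HG G, MemLp u 2 (volume.restrict (Icc 0 T)) ∧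
      (∀ᵐ τ ∂(volume.restrict (Icc 0 T)), ∀ᵐ x ∂(volume.restrict G), x ∉ G₀ → (u τ) x = 0) ∧
      ∀ j, ∫ o, coef lam e γ T (α o) (e j₀) u j ∂P = 0

end Pool.Agent.Q62.AV
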